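import Pool.Agent.Lib_helper7.PT.Main
import Pool.Agent.Lib_helper7.PT.Conc
import Pool.Agent.Lib_helper7.PT.KMain
import Pool.Agent.Lib_helper60.PT.TG
import Pool.Agent.Lib_helper96.PT.ModC
import Pool.Agent.Lib_helper79.PT.SharpSup
import Pool.Agent.Lib_helper64.PT.Upper
import Pool.Agent.Lib_helper64.PT.PCos
import Pool.Agent.Lib_helper51.PT.ExistsMain
import Pool.Agent.Lib_helper86.PT.Dens
import Pool.Agent.Lib_helper73.PT.Barta
import Pool.Agent.Lib_helper3.PT.PBound
import Pool.Agent.Lib_helper63.PT.SharpInf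

/-!
# Sharp bounds for `F_{p,1}` on convex domains (all `d ≥ 2`, all `1 < p < ∞`)

With `s = p/(p-1)` and `L = (p-1) (π / (p sin(π/p)))^p`:
`sup F_{p,1} = L (s+1)^{1-p}` and `inf F_{p,1} = L (Γ(d+1) Γ(s+1) / Γ(d+s+1))^{p-1}`.

The definitions (`K d`, `T`, `lam`, `F`, `lam1`, `bet`) are in `Pool/Agent/Lib_helper7/PT/Defs.lean`.

Sketch of the proof.  Let `w` be the `p`-torsion function of `Ω`, `M = max w`, `G = (s w)^{1/s}`.
* `G` is concave (`PTor.conc_holds`; sup- and inf-convolutions, no regularity theory).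
* `(s (M - w))^{1/s}` is `1`-Lipschitz (`PTor.stmtPBound`).
* Upper bound: `λ_p` is tested with `F(w/κ)`, where the one-variable function `F` is the `p`-cosine
  parametrised by the level; the key is the integral inequality `PTor.StmtTG`, obtained by testing
  the equation with vector fields built from `G`.
* Lower bound: `λ_p ≥ L (s M)^{1-p}` (`PTor.stmtBarta`) and `∫ w ≥ β s M |Ω|` (`PTor.StmtLower`),
  the latter by the integral inequality `StmtTG` for a family of functions `l_t` and an exact
  kernel identity.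
* Sharpness: thin boxes for the supremum, thin double cones for the infimum.
-/

open PTor

namespace Pool.Agent.Results.MP_1ab35c_an.SharpFp1

/-- For `d ≥ 2` and `1 < p < ∞`, with `s = p/(p-1)`: the supremum of `F_{p,1}` over the nonempty
bounded open convex sets of `ℝ^d` is `lam1 p * (s+1)^(1-p)` and the infimum is
`lam1 p * (bet d s)^(p-1)`. -/
theorem result (d : ℕ) (hd : 2 ≤ d) (p : ℝ) (hp : 1 < p) :
    (∀ Ω ∈ K d, IsLUB (torQ p Ω) (T p Ω) ∧ IsGLB (rayQ p Ω) (lam p Ω)) ∧
    IsLUB (F p '' K d) (lam1 p * (p / (p - 1) + 1) ^ (1 - p)) ∧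
    IsGLB (F p '' K d) (lam1 p * bet d (p / (p - 1)) ^ (p - 1)) := by
  have hTG := stmtTG_of_pbound stmtPBound
  have hConc := conc_holds inf_holds
  exact assembly stmtExists hConc stmtPBound dens_holds stmtBarta
    (stmtUpper stmtPCos hTG hConc dens_holds) (lower_holds hConc stmtPBound hTG)
    (stmtSharpSup hConc stmtPBound stmtBarta stmtExists dens_holds)
    (sharpInf_holds dens_holds stmtPCos stmtExists) d hd p (p / (p - 1))
    (Real.HolderConjugate.conjExponent hp)

end Pool.Agent.Results.MP_1ab35c_an.SharpFp1
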